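import Pool.Agent.Helper8.B.Defs

/-!
BALL QUOTIENT TYPE, module M4: normal form of a skew operator with real eigenvalues on a
Lorentzian Hermitian space.
-/

open scoped ComplexConjugate InnerProductSpace

namespace Pool.Agent.Helper30.Ball

open Module Matrix Pool.Agent.Ball

section form

variable {m : ℕ} (H : Matrix (Fin m) (Fin m) ℂ)

lemma hf_add_left (u u' v : Fin m → ℂ) : hf H (u + u') v = hf H u v + hf H u' v := by
  simp only [hf, star_add, add_dotProduct]

lemma hf_add_right (u v v' : Fin m → ℂ) : hf H u (v + v') = hf H u v + hf H u v' := by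
  simp only [hf, mulVec_add, dotProduct_add]

lemma hf_smul_left (c : ℂ) (u v : Fin m → ℂ) : hf H (c • u) v = conj c * hf H u v := by
  simp only [hf, star_smul, smul_dotProduct, smul_eq_mul]
  rfl

lemma hf_smul_right (c : ℂ) (u v : Fin m → ℂ) : hf H u (c • v) = c * hf H u v := by
  simp only [hf, mulVec_smul, dotProduct_smul, smul_eq_mul]

lemma hf_zero_left (v : Fin m → ℂ) : hf H 0 v = 0 := by
  simp [hf]

lemma hf_zero_right (u : Fin m → ℂ) : hf H u 0 = 0 := by
  simp [hf]

lemma hf_sub_right (u v v' : Fin m → ℂ) : hf H u (v - v') = hf H u v - hf H u v' := by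
  simp only [hf, mulVec_sub, dotProduct_sub]

lemma hf_sub_left (u u' v : Fin m → ℂ) : hf H (u - u') v = hf H u v - hf H u' v := by
  simp only [hf, star_sub, sub_dotProduct]

lemma hf_sum_left {ι : Type*} (s : Finset ι) (f : ι → Fin m → ℂ) (v : Fin m → ℂ) :
    hf H (∑ i ∈ s, f i) v = ∑ i ∈ s, hf H (f i) v := by
  classical
  induction s using Finset.induction_on with
  | empty => rw [Finset.sum_empty, Finset.sum_empty, hf_zero_left]
  | insert a s ha ih => rw [Finset.sum_insert ha, Finset.sum_insert ha, hf_add_left, ih]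

lemma hf_sum_right {ι : Type*} (s : Finset ι) (f : ι → Fin m → ℂ) (u : Fin m → ℂ) :
    hf H u (∑ i ∈ s, f i) = ∑ i ∈ s, hf H u (f i) := by
  classical
  induction s using Finset.induction_on with
  | empty => rw [Finset.sum_empty, Finset.sum_empty, hf_zero_right]
  | insert a s ha ih => rw [Finset.sum_insert ha, Finset.sum_insert ha, hf_add_right, ih]

variable {H}

lemma hf_symm (hH : H.IsHermitian) (u v : Fin m → ℂ) : conj (hf H u v) = hf H v u := by
  unfold hf
  have h1 : conj (star u ⬝ᵥ (H *ᵥ v)) = star (star u ⬝ᵥ (H *ᵥ v)) := rfl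
  rw [h1, ← Matrix.star_dotProduct, star_mulVec, ← dotProduct_mulVec, hH.eq]

lemma hf_self_re (hH : H.IsHermitian) (v : Fin m → ℂ) : hf H v v = ((hf H v v).re : ℂ) :=
  (Complex.conj_eq_iff_re.mp (hf_symm hH v v)).symm

lemma eig_mul {B : Matrix (Fin m) (Fin m) ℂ}
    (hB : ∀ u v, hf H (B *ᵥ u) v + hf H u (B *ᵥ v) = 0) {u v : Fin m → ℂ} {r s : ℝ}
    (hu : B *ᵥ u = (r : ℂ) • u) (hv : B *ᵥ v = (s : ℂ) • v) :
    ((r : ℂ) + (s : ℂ)) * hf H u v = 0 := by
  have := hB u v
  rw [hu, hv, hf_smul_left, hf_smul_right, Complex.conj_ofReal] at this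
  rw [add_mul]
  exact this

lemma eig_self {B : Matrix (Fin m) (Fin m) ℂ}
    (hB : ∀ u v, hf H (B *ᵥ u) v + hf H u (B *ᵥ v) = 0) {u : Fin m → ℂ} {r : ℝ} (hr : r ≠ 0)
    (hu : B *ᵥ u = (r : ℂ) • u) : hf H u u = 0 := by
  have h := eig_mul hB hu hu
  rcases mul_eq_zero.mp h with h1 | h1
  · exfalso
    apply hr
    have : (r : ℂ) = 0 := by
      have h2 : (2 : ℂ) * (r : ℂ) = 0 := by rw [two_mul]; exact h1
      exact (mul_eq_zero.mp h2).resolve_left two_ne_zero
    exact_mod_cast this
  · exact h1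

/-- the orthogonal complement of a negative vector of a Lorentzian space is positive -/
lemma pos_of_orth (hL : Lorentz H) (n v : Fin m → ℂ) (hn : (hf H n n).re < 0)
    (hnv : hf H n v = 0) (hv : v ≠ 0) : 0 < (hf H v v).re := by
  obtain ⟨hH, e, he, hpos⟩ := hL
  by_contra hcon
  rw [not_lt] at hcon
  have hvn : hf H v n = 0 := by
    rw [← hf_symm hH, hnv, map_zero]
  by_cases hb : hf H e n = 0
  · have hn0 : n ≠ 0 := by
      rintro rfl
      rw [hf_zero_left] at hn
      simp at hn
    have := hpos n hb hn0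
    linarith
  · set w := hf H e v • n - hf H e n • v with hw
    have h1 : hf H e w = 0 := by
      rw [hw, hf_sub_right, hf_smul_right, hf_smul_right]
      ring
    have hww : (hf H w w).re = Complex.normSq (hf H e v) * (hf H n n).re
        + Complex.normSq (hf H e n) * (hf H v v).re := by
      have : hf H w w = (Complex.normSq (hf H e v) : ℂ) * hf H n n
          + (Complex.normSq (hf H e n) : ℂ) * hf H v v := by
        simp only [hw, hf_sub_right, hf_sub_left, hf_smul_right, hf_smul_left, hnv, hvn,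
          Complex.normSq_eq_conj_mul_self]
        ring
      rw [this, Complex.add_re, Complex.re_ofReal_mul, Complex.re_ofReal_mul]
    have hw0 : w ≠ 0 := by
      intro h0
      apply hv
      have h2 : hf H n w = 0 := by rw [h0, hf_zero_right]
      rw [hw, hf_sub_right, hf_smul_right, hf_smul_right, hnv, mul_zero, sub_zero] at h2
      have hnn : hf H n n ≠ 0 := by
        intro h3
        rw [h3] at hn
        simp at hn
      have h4 : hf H e v = 0 := (mul_eq_zero.mp h2).resolve_right hnn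
      rw [h4, zero_smul, zero_sub] at hw
      have h5 : hf H e n • v = 0 := by
        rw [← neg_eq_zero, ← hw, h0]
      exact (smul_eq_zero.mp h5).resolve_left hb
    have h6 := hpos w h1 hw0
    rw [hww] at h6
    have h7 : 0 ≤ Complex.normSq (hf H e v) := Complex.normSq_nonneg _
    have h8 : 0 ≤ Complex.normSq (hf H e n) := Complex.normSq_nonneg _
    nlinarith [mul_nonneg h7 (le_of_lt (neg_pos.mpr hn)), mul_nonneg h8 (neg_nonneg.mpr hcon)]

end form

section onb

lemma exists_onb {W : Type*} [AddCommGroup W] [Module ℂ W] [FiniteDimensional ℂ W]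
    (h : W → W → ℂ) (hsymm : ∀ u v, conj (h u v) = h v u)
    (hadd : ∀ u u' v, h (u + u') v = h u v + h u' v)
    (hsmul : ∀ (c : ℂ) u v, h (c • u) v = conj c * h u v)
    (hpos : ∀ v, v ≠ 0 → 0 < (h v v).re) :
    ∃ (l : ℕ) (b : Basis (Fin l) ℂ W), ∀ i j, h (b i) (b j) = if i = j then 1 else 0 := by
  have h0 : ∀ v, h 0 v = 0 := by
    intro v
    have := hsmul 0 0 v
    rwa [zero_smul, map_zero, zero_mul] at this
  let core : InnerProductSpace.Core ℂ W :=
    { inner := h
      conj_inner_symm := fun u v => hsymm v u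
      re_inner_nonneg := fun v => by
        by_cases hv : v = 0
        · rw [hv]
          simp [h0]
        · exact le_of_lt (hpos v hv)
      add_left := hadd
      smul_left := fun u v c => hsmul c u v
      definite := fun v hv => by
        by_contra hne
        have := hpos v hne
        rw [hv] at this
        simp at this }
  let _ : NormedAddCommGroup W := core.toNormedAddCommGroup
  let _ : InnerProductSpace ℂ W := InnerProductSpace.ofCore core.toCore
  refine ⟨finrank ℂ W, (stdOrthonormalBasis ℂ W).toBasis, fun i j => ?_⟩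
  have := orthonormal_iff_ite.mp (stdOrthonormalBasis ℂ W).orthonormal i j
  rw [OrthonormalBasis.coe_toBasis]
  exact this

end onb


section main

/-- M4.  Normal form of a skew operator with real eigenvalues on a Lorentzian space. -/
theorem M4 {m : ℕ} (H : Matrix (Fin m) (Fin m) ℂ) (hL : Lorentz H)
    (hdet : ∀ v, (∀ u, hf H u v = 0) → v = 0)
    (B : Matrix (Fin m) (Fin m) ℂ) (hB : ∀ u v, hf H (B *ᵥ u) v + hf H u (B *ᵥ v) = 0)
    (hdiag : ∀ v : Fin m → ℂ, v ∈ Submodule.span ℂ {w | ∃ r : ℝ, B *ᵥ w = (r : ℂ) • w})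
    (hB0 : B ≠ 0) :
    ∃ (l : ℕ) (Θ : LV l ≃ₗ[ℂ] (Fin m → ℂ)) (a : ℝ), m = l + 2 ∧ a ≠ 0 ∧
      (∀ x y, hf H (Θ x) (Θ y) = hm x y) ∧ ∀ x, B *ᵥ (Θ x) = (a : ℂ) • Θ (opH x) := by
  classical
  have hH : H.IsHermitian := hL.1
  -- a property which holds for eigenvectors holds for all vectors
  have hind : ∀ (f : (Fin m → ℂ) →ₗ[ℂ] (Fin m → ℂ)),
      (∀ w, (∃ r : ℝ, B *ᵥ w = (r : ℂ) • w) → f w = 0) → ∀ v, f v = 0 := by
    intro f hf0 v
    have h1 : Submodule.span ℂ {w | ∃ r : ℝ, B *ᵥ w = (r : ℂ) • w} ≤ LinearMap.ker f := by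
      rw [Submodule.span_le]
      intro w hw
      exact hf0 w hw
    exact h1 (hdiag v)
  -- the eigenvector with nonzero eigenvalue
  obtain ⟨ep, a, hep, ha, hep0⟩ : ∃ (ep : Fin m → ℂ) (a : ℝ), B *ᵥ ep = (a : ℂ) • ep ∧ a ≠ 0 ∧
      ep ≠ 0 := by
    by_contra hcon
    apply hB0
    have h1 : ∀ v, B.mulVecLin v = 0 := by
      refine hind B.mulVecLin ?_
      rintro w ⟨r, hr⟩
      rw [Matrix.mulVecLin_apply]
      by_contra hne
      apply hcon
      refine ⟨w, r, hr, ?_, ?_⟩
      · rintro rfl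
        apply hne
        rw [hr, Complex.ofReal_zero, zero_smul]
      · rintro rfl
        apply hne
        rw [mulVec_zero]
    apply Matrix.toLin'.injective
    rw [map_zero]
    refine LinearMap.ext fun v => ?_
    exact h1 v
  have haC : (a : ℂ) ≠ 0 := by exact_mod_cast ha
  have hpp : hf H ep ep = 0 := eig_self hB ha hep
  -- the opposite eigenvector
  obtain ⟨em, hem, hmp⟩ : ∃ em : Fin m → ℂ, B *ᵥ em = ((-a : ℝ) : ℂ) • em ∧ hf H em ep = 1 := by
    have h1 : ∃ w, (∃ r : ℝ, B *ᵥ w = (r : ℂ) • w) ∧ hf H ep w ≠ 0 := by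
      by_contra hcon
      push Not at hcon
      apply hep0
      apply hdet
      intro u
      let f : (Fin m → ℂ) →ₗ[ℂ] (Fin m → ℂ) :=
        { toFun := fun v => hf H ep v • ep
          map_add' := fun x y => by rw [hf_add_right, add_smul]
          map_smul' := fun c x => by rw [hf_smul_right, mul_smul]; rfl }
      have h2 := hind f (fun w hw => by
        change hf H ep w • ep = 0
        rw [hcon w hw, zero_smul]) u
      have h3 : hf H ep u • ep = 0 := h2
      have h4 : hf H ep u = 0 := (smul_eq_zero.mp h3).resolve_right hep0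
      rw [← hf_symm hH, h4, map_zero]
    obtain ⟨w, ⟨r, hr⟩, hw⟩ := h1
    have h5 := eig_mul hB hep hr
    have h6 : (a : ℂ) + (r : ℂ) = 0 := (mul_eq_zero.mp h5).resolve_right hw
    have h7 : r = -a := by
      have : a + r = 0 := by exact_mod_cast h6
      linarith
    refine ⟨(hf H ep w)⁻¹ • w, ?_, ?_⟩
    · rw [mulVec_smul, hr, h7, smul_comm]
    · rw [hf_smul_left, map_inv₀, hf_symm hH]
      have h8 : hf H w ep ≠ 0 := by
        rw [← hf_symm hH]
        exact fun h => hw ((map_eq_zero _).mp h)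
      exact inv_mul_cancel₀ h8
  have hmm : hf H em em = 0 := eig_self hB (neg_ne_zero.mpr ha) hem
  have hpm : hf H ep em = 1 := by rw [← hf_symm hH, hmp, map_one]
  -- positivity of the orthogonal complement
  have hn : (hf H (ep - em) (ep - em)).re < 0 := by
    rw [hf_sub_right, hf_sub_left, hf_sub_left, hpp, hmp, hpm, hmm]
    norm_num
  have hpos : ∀ v, hf H ep v = 0 → hf H em v = 0 → v ≠ 0 → 0 < (hf H v v).re := by
    intro v h1 h2 h3
    refine pos_of_orth hL (ep - em) v hn ?_ h3
    rw [hf_sub_left, h1, h2, sub_zero]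
  have hBp : ∀ v, hf H ep (B *ᵥ v) = - ((a : ℂ) * hf H ep v) := by
    intro v
    have := hB ep v
    rw [hep, hf_smul_left, Complex.conj_ofReal] at this
    exact (neg_eq_of_add_eq_zero_right this).symm
  have hBm : ∀ v, hf H em (B *ᵥ v) = (a : ℂ) * hf H em v := by
    intro v
    have := hB em v
    rw [hem, hf_smul_left, Complex.conj_ofReal, Complex.ofReal_neg, neg_mul] at this
    exact (neg_eq_of_add_eq_zero_right this).symm.trans (neg_neg _)
  -- the projection
  let pr : (Fin m → ℂ) →ₗ[ℂ] (Fin m → ℂ) :=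
    { toFun := fun v => v - hf H em v • ep - hf H ep v • em
      map_add' := fun x y => by
        rw [hf_add_right, hf_add_right, add_smul, add_smul]
        abel
      map_smul' := fun c x => by
        rw [hf_smul_right, hf_smul_right, mul_smul, mul_smul, RingHom.id_apply, smul_sub,
          smul_sub] }
  have hpr : ∀ v, pr v = v - hf H em v • ep - hf H ep v • em := fun v => rfl
  have hprp : ∀ v, hf H ep (pr v) = 0 := by
    intro v
    rw [hpr, hf_sub_right, hf_sub_right, hf_smul_right, hf_smul_right, hpp, hpm]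
    ring
  have hprm : ∀ v, hf H em (pr v) = 0 := by
    intro v
    rw [hpr, hf_sub_right, hf_sub_right, hf_smul_right, hf_smul_right, hmp, hmm]
    ring
  have hprB : ∀ v, B *ᵥ pr v = pr (B *ᵥ v) := by
    intro v
    rw [hpr, hpr, mulVec_sub, mulVec_sub, mulVec_smul, mulVec_smul, hep, hem, hBp, hBm,
      Complex.ofReal_neg]
    module
  have hBpr : ∀ v, (B.mulVecLin ∘ₗ pr) v = 0 := by
    refine hind _ ?_
    rintro w ⟨r, hr⟩
    rw [LinearMap.comp_apply, Matrix.mulVecLin_apply]
    have h1 : B *ᵥ pr w = (r : ℂ) • pr w := by rw [hprB, hr, map_smul]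
    by_cases h2 : pr w = 0
    · rw [h2, mulVec_zero]
    · have h3 := hpos (pr w) (hprp w) (hprm w) h2
      by_cases h4 : r = 0
      · rw [h1, h4, Complex.ofReal_zero, zero_smul]
      · exfalso
        rw [eig_self hB h4 h1] at h3
        simp at h3
  -- the orthogonal complement
  let V0 : Submodule ℂ (Fin m → ℂ) :=
    { carrier := {v | hf H ep v = 0 ∧ hf H em v = 0}
      add_mem' := fun {x y} hx hy => by
        refine ⟨?_, ?_⟩
        · rw [hf_add_right, hx.1, hy.1, add_zero]
        · rw [hf_add_right, hx.2, hy.2, add_zero]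
      zero_mem' := ⟨hf_zero_right H ep, hf_zero_right H em⟩
      smul_mem' := fun c x hx => by
        refine ⟨?_, ?_⟩
        · rw [hf_smul_right, hx.1, mul_zero]
        · rw [hf_smul_right, hx.2, mul_zero] }
  have hV0B : ∀ v ∈ V0, B *ᵥ v = 0 := by
    intro v hv
    have h1 : pr v = v := by
      rw [hpr, hv.1, hv.2, zero_smul, zero_smul, sub_zero, sub_zero]
    have h2 := hBpr v
    rw [LinearMap.comp_apply, Matrix.mulVecLin_apply, h1] at h2
    exact h2
  obtain ⟨l, b, hb⟩ := exists_onb (W := V0) (fun u v => hf H u v) (fun u v => hf_symm hH _ _)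
    (fun u u' v => by
      rw [Submodule.coe_add, hf_add_left])
    (fun c u v => by
      rw [Submodule.coe_smul, hf_smul_left])
    (fun v hv => hpos v v.2.1 v.2.2 (fun h => hv (Subtype.ext h)))
  -- the map
  let X : EuclideanSpace ℂ (Fin l) →ₗ[ℂ] V0 :=
    { toFun := fun x => ∑ i, x i • b i
      map_add' := fun x y => by
        simp only [PiLp.add_apply, add_smul, Finset.sum_add_distrib]
      map_smul' := fun c x => by
        simp only [PiLp.smul_apply, smul_eq_mul, mul_smul, Finset.smul_sum, RingHom.id_apply] }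
  have hX : ∀ x : EuclideanSpace ℂ (Fin l), ((X x : V0) : Fin m → ℂ) =
      ∑ i, x i • (b i : Fin m → ℂ) := by
    intro x
    change ((∑ i, x i • b i : V0) : Fin m → ℂ) = _
    rw [Submodule.coe_sum]
    rfl
  have hXX : ∀ x y : EuclideanSpace ℂ (Fin l), hf H (X x) (X y) = ⟪x, y⟫_ℂ := by
    intro x y
    rw [hX, hX, hf_sum_left, PiLp.inner_apply]
    refine Finset.sum_congr rfl fun i _ => ?_
    rw [hf_smul_left, hf_sum_right, Finset.sum_eq_single i, hf_smul_right, hb i i, if_pos rfl,
      mul_one]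
    · rw [mul_comm]
      rfl
    · intro j _ hj
      rw [hf_smul_right, hb i j, if_neg (fun h => hj h.symm), mul_zero]
    · intro h
      exact absurd (Finset.mem_univ i) h
  let Θ0 : LV l →ₗ[ℂ] (Fin m → ℂ) :=
    { toFun := fun x => x.1 • ep + (X x.2.1 : Fin m → ℂ) + x.2.2 • em
      map_add' := fun x y => by
        simp only [Prod.fst_add, Prod.snd_add, map_add, Submodule.coe_add, add_smul]
        abel
      map_smul' := fun c x => by
        simp only [Prod.smul_fst, Prod.smul_snd, map_smul, Submodule.coe_smul, smul_eq_mul,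
          mul_smul, RingHom.id_apply, smul_add] }
  have hΘ0 : ∀ x, Θ0 x = x.1 • ep + (X x.2.1 : Fin m → ℂ) + x.2.2 • em := fun x => rfl
  have hΘp : ∀ x, hf H ep (Θ0 x) = x.2.2 := by
    intro x
    rw [hΘ0, hf_add_right, hf_add_right, hf_smul_right, hf_smul_right, hpp, hpm,
      (X x.2.1).2.1]
    ring
  have hΘm : ∀ x, hf H em (Θ0 x) = x.1 := by
    intro x
    rw [hΘ0, hf_add_right, hf_add_right, hf_smul_right, hf_smul_right, hmp, hmm,
      (X x.2.1).2.2]
    ring
  have hΘΘ : ∀ x y, hf H (Θ0 x) (Θ0 y) = hm x y := by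
    intro x y
    have h1 : hf H (X x.2.1 : Fin m → ℂ) ep = 0 := by
      rw [← hf_symm hH, (X x.2.1).2.1, map_zero]
    have h2 : hf H (X x.2.1 : Fin m → ℂ) em = 0 := by
      rw [← hf_symm hH, (X x.2.1).2.2, map_zero]
    have h3 : hf H (X x.2.1 : Fin m → ℂ) (Θ0 y) = ⟪x.2.1, y.2.1⟫_ℂ := by
      rw [hΘ0 y, hf_add_right, hf_add_right, hf_smul_right, hf_smul_right, h1, h2, hXX]
      ring
    rw [hΘ0 x, hf_add_left, hf_add_left, hf_smul_left, hf_smul_left, hΘp, hΘm, h3, hm]
    ring
  have hinj : Function.Injective Θ0 := by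
    rw [← LinearMap.ker_eq_bot, LinearMap.ker_eq_bot']
    intro x hx
    have h1 : x.2.2 = 0 := by rw [← hΘp, hx, hf_zero_right]
    have h2 : x.1 = 0 := by rw [← hΘm, hx, hf_zero_right]
    have h3 : ((X x.2.1 : V0) : Fin m → ℂ) = 0 := by
      rw [hΘ0, h1, h2, zero_smul, zero_smul, zero_add, add_zero] at hx
      exact hx
    have h4 : (X x.2.1 : V0) = 0 := Subtype.ext h3
    have h5 : x.2.1 = 0 := by
      have h6 : ⟪x.2.1, x.2.1⟫_ℂ = 0 := by
        rw [← hXX, h3, hf_zero_right]
      exact inner_self_eq_zero.mp h6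
    exact Prod.ext h2 (Prod.ext h5 h1)
  have hsurj : Function.Surjective Θ0 := by
    intro v
    have h1 : pr v ∈ V0 := ⟨hprp v, hprm v⟩
    let y : EuclideanSpace ℂ (Fin l) := WithLp.toLp 2 (fun i => b.repr ⟨pr v, h1⟩ i)
    have h2 : X y = ⟨pr v, h1⟩ := by
      change ∑ i, y i • b i = _
      exact b.sum_repr ⟨pr v, h1⟩
    refine ⟨(hf H em v, y, hf H ep v), ?_⟩
    rw [hΘ0]
    change hf H em v • ep + (X y : Fin m → ℂ) + hf H ep v • em = v
    rw [h2]
    change hf H em v • ep + pr v + hf H ep v • em = v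
    rw [hpr]
    abel
  refine ⟨l, LinearEquiv.ofBijective Θ0 ⟨hinj, hsurj⟩, a, ?_, ha, ?_, ?_⟩
  · have h1 := (LinearEquiv.ofBijective Θ0 ⟨hinj, hsurj⟩).finrank_eq
    rw [Module.finrank_prod, Module.finrank_prod, finrank_euclideanSpace, Fintype.card_fin,
      Module.finrank_self, Module.finrank_fintype_fun_eq_card, Fintype.card_fin] at h1
    omega
  · intro x y
    exact hΘΘ x y
  · intro x
    change B *ᵥ Θ0 x = (a : ℂ) • Θ0 (opH x)
    rw [hΘ0, hΘ0, mulVec_add, mulVec_add, mulVec_smul, mulVec_smul, hep, hem,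
      hV0B _ (X x.2.1).2]
    change x.1 • (a : ℂ) • ep + 0 + x.2.2 • ((-a : ℝ) : ℂ) • em =
      (a : ℂ) • (x.1 • ep + ((X 0 : V0) : Fin m → ℂ) + (-x.2.2) • em)
    rw [map_zero, Submodule.coe_zero, Complex.ofReal_neg]
    module

end main

end Pool.Agent.Helper30.Ball
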